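import Pool.Agent.Q41.NS.Fin

/-! For `d = 2` and `n = 3` the rectangle `(-1/3, 5/3) × (-1/2, 1/2)` has a larger value of the
functional `F_n` than every ball containing the origin, so the answer to Q1 is negative. -/

set_option autoImplicit false

open Q41.NS

namespace Pool.Agent.Results.MP_050cc1_an.RectangleBeatsBalls

/-- the conjecture of Q1: for all `d, n ≥ 2` the maximum of `F_n` over `𝒦_d` is attained at some
ball -/
def BallMaximises : Prop :=
  ∀ d : ℕ, 2 ≤ d → ∀ n : ℕ, 2 ≤ n → ∃ (p : E d) (R : ℝ), 0 < R ∧ (0 : E d) ∈ Metric.ball p R ∧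
    ∀ Ω : Set (E d), InK Ω → F n Ω ≤ F n (Metric.ball p R)

theorem result :
    InK Om ∧
    (∀ (p : E 2) (R : ℝ), 0 < R → (0 : E 2) ∈ Metric.ball p R →
      F 3 (Metric.ball p R) < F 3 Om ∧ 1.03 * F 3 (Metric.ball p R) ≤ F 3 Om) ∧
    ¬ BallMaximises := by
  have hpi : 0 < Real.pi ^ 2 := by have := Real.pi_pos; positivity
  have key : ∀ (p : E 2) (R : ℝ), 0 < R → (0 : E 2) ∈ Metric.ball p R →
      F 3 (Metric.ball p R) < F 3 Om ∧ 1.03 * F 3 (Metric.ball p R) ≤ F 3 Om := by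
    intro p R hR h0
    have h1 := F3_ball p hR h0
    have h2 := F3_Om
    constructor
    · nlinarith
    · nlinarith
  refine ⟨Om_inK, key, ?_⟩
  intro h
  obtain ⟨p, R, hR, h0, hmax⟩ := h 2 le_rfl 3 (by norm_num)
  exact absurd (hmax Om Om_inK) (not_le.2 (key p R hR h0).1)

end Pool.Agent.Results.MP_050cc1_an.RectangleBeatsBalls
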